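import Pool.Agent.H27.QE

namespace Pool.Agent.Results.MP_c82d9a_nt.Blocks
open Finset Polynomial Pool.Agent.H27.QC Pool.Agent.H27.QC.Loc Pool.Agent.H27.QD Pool.Agent.H27.QE

/-- the shifted factorial `(a; b)_k` -/
def poch {K : Type*} [Field K] (a b : K) (k : ℕ) : K := ∏ i ∈ range k, (1 - a * b ^ i)

/-- the `q`-integer `[N]` -/
def qint {K : Type*} [Field K] (q : K) (N : ℕ) : K := (1 - q ^ N) / (1 - q)

/-- the rising factorial `(x)_k` -/
def rising (x : ℚ) (k : ℕ) : ℚ := ∏ i ∈ range k, (x + i)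

/-- `c_j(q)` -/
def c {K : Type*} [Field K] (q : K) (j : ℕ) : K := (poch q (q ^ 2) j / poch q q j) ^ 3

/-- `b_j` -/
def b (j : ℕ) : ℚ := 8 ^ j * rising (1 / 2) j ^ 3 / (j.factorial : ℚ) ^ 3

/-- `L_{m,n}(q)` -/
def Lhs {K : Type*} [Field K] (q : K) (m n : ℕ) : K :=
  ∑ j ∈ range (m * n), (-1) ^ j * qint q (3 * j + 1) * c q j

/-- `R_{m,n}(q)` -/
def Rhs {K : Type*} [Field K] (q : K) (m n : ℕ) : K :=
  (-1) ^ ((n - 1) / 2) * q ^ ((n - 1) ^ 2 / 4) * qint q n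
    * ((∑ j ∈ range m, (-1) ^ j * (3 * j + 1) * b j : ℚ) : K)

/-- congruence modulo `Φ_n(q) ^ 2`, read in lowest terms -/
def Cong (n : ℕ) (A B : RatFunc ℚ) : Prop :=
  cyclotomic n ℚ ^ 2 ∣ (A - B).num ∧ ¬ cyclotomic n ℚ ∣ (A - B).denom

variable {K : Type*} [Field K]

def NN (q : K) (k : ℕ) (x : K) : K := ∏ i ∈ range k, (1 - x * q ^ (2 * i + 1))
def DD (q : K) (k : ℕ) (x : K) : K := ∏ i ∈ range k, (1 - x * q ^ (i + 1))
def EE (q : K) (k : ℕ) (x : K) : K := ∏ i ∈ range k, (1 - x * q ^ (2 * i + 2))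
def ta (q : K) (k : ℕ) (y : K) : K := NN q k (y ^ 2) / DD q k y

theorem ta_add (q : K) (k j : ℕ) : ta q (k + j) 1 = ta q k 1 * ta q j (q ^ k) := by
  unfold ta NN DD
  rw [prod_range_add, prod_range_add, div_mul_div_comm]
  congr 2 <;> exact prod_congr rfl fun i _ => by ring

theorem c_eq (q : K) (k : ℕ) : c q k = ta q k 1 ^ 3 := by
  unfold c ta NN DD poch
  congr 2 <;> exact prod_congr rfl fun i _ => by ring

theorem DD_two (q : K) (h : ℕ) : DD q (2 * h) 1 = NN q h 1 * EE q h 1 := by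
  unfold NN DD EE
  induction h with
  | zero => simp
  | succ h ih =>
    rw [show 2 * (h + 1) = 2 * h + 1 + 1 by ring, prod_range_succ, prod_range_succ, ih,
      prod_range_succ, prod_range_succ]
    ring

theorem NN_odd (q x : K) (h : ℕ) : NN q (2 * h + 1) x
    = NN q h x * EE q h (x * q ^ (2 * h + 1)) * (1 - x * q ^ (2 * h + 1)) := by
  unfold NN EE
  rw [show 2 * h + 1 = h + (h + 1) by ring, prod_range_add, prod_range_succ', mul_assoc]
  congr 2
  · exact prod_congr rfl fun i _ => by ring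
  · ring

theorem ta_odd (q y : K) (h : ℕ) : ta q (2 * h + 1) y
    = NN q h (y ^ 2) * EE q h (y ^ 2 * q ^ (2 * h + 1)) / DD q (2 * h) y
      * ((1 - y ^ 2 * q ^ (2 * h + 1)) / (1 - y * q ^ (2 * h + 1))) := by
  rw [ta, NN_odd, DD, prod_range_succ, ← DD, div_mul_div_comm]

def tt (q : K) (k : ℕ) (y : K) : K := (-1) ^ k * (1 - y ^ 3 * q ^ (3 * k + 1)) * ta q k y ^ 3

theorem vv_eq (q y : K) (hq : q ≠ 0) (h k : ℕ) : vv (y ^ 3 * q) q (q ^ (2 * h)) k
    = (-1) ^ k * (NN q k (y ^ 3 * q ^ (2 * h + 1)) * NN q k (q ^ (2 * h + 1))⁻¹ * NN q k (y ^ 3)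
      / (DD q k (q ^ (2 * h + 1))⁻¹ * DD q k (y ^ 3 * q ^ (2 * h + 1)) * DD q k 1)) := by
  rw [← card_range k, ← prod_const, card_range, NN, NN, NN, DD, DD, DD, ← prod_mul_distrib,
    ← prod_mul_distrib, ← prod_mul_distrib, ← prod_mul_distrib, ← prod_div_distrib,
    ← prod_mul_distrib, vv]
  refine prod_congr rfl fun i _ => ?_
  have hw : q ^ (2 * h) ≠ 0 := pow_ne_zero _ hq
  rw [st, neg_one_mul, neg_inj, ← mul_div_mul_right _ _ (inv_ne_zero hw)]
  refine congrArg₂ (fun x y : K => x / y) ?_ ?_ <;> field_simp <;> ring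

variable [CharZero K] {L : Loc K} {h : ℕ} (hn : L.n = 2 * h + 1)

theorem NN_TG (k : ℕ) : L.TG (NN L.q k) := TG.prod _ fun _ _ => TG.lin
theorem DD_TG (k : ℕ) : L.TG (DD L.q k) := TG.prod _ fun _ _ => TG.lin
theorem EE_TG (k : ℕ) : L.TG (EE L.q k) := TG.prod _ fun _ _ => TG.lin

include hn

theorem nd {j : ℕ} (h0 : 0 < j) (h1 : j ≤ 2 * h) : ¬ L.n ∣ j := fun hd => by
  have := Nat.le_of_dvd h0 hd; omega

variable {y d : K}

theorem NN_U {k : ℕ} (hk : k ≤ h) (hy : Nr L y d) : L.U (NN L.q k y) :=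
  U.prod _ _ fun i hi => hy.lin (nd hn (by omega) (by have := mem_range.mp hi; omega))
theorem EE_U (hy : Nr L y d) : L.U (EE L.q h y) :=
  U.prod _ _ fun i hi => hy.lin (nd hn (by omega) (by have := mem_range.mp hi; omega))
theorem DD_U {k : ℕ} (hk : k ≤ 2 * h) (hy : Nr L y d) : L.U (DD L.q k y) :=
  U.prod _ _ fun i hi => hy.lin (nd hn (by omega) (by have := mem_range.mp hi; omega))

theorem blocks (a : ℕ) : L.E 1 (ta L.q (a * L.n) 1) ((2 ^ a * ww a : ℚ) : K) := by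
  induction a with
  | zero => exact E.of_eq (by simp [ta, NN, DD, ww, asc])
  | succ a ih =>
    have y1 := Nr.qn (L := L) a
    have y2 := y1.pow 2
    have y3 := y2.mul (Nr.qn 1)
    have h1 := (NN_TG (L := L) h).near y2.1 y2.2
    have h2 := (EE_TG (L := L) h).near y3.1 y3.2
    have h3 := (DD_TG (L := L) (2 * h)).near y1.1 y1.2
    have hr : ((2 * a + 1 : ℕ) : K) / ((a + 1 : ℕ) : K) ∈ L.O :=
      div_mem' (L.nat_mem _) (U.nat (by omega))
    have h4 : L.E 1 ((1 - (L.q ^ L.n) ^ (2 * a + 1)) / (1 - (L.q ^ L.n) ^ (a + 1)))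
        (((2 * a + 1 : ℕ) : K) / ((a + 1 : ℕ) : K)) := by
      refine (((ratio (L := L) (by omega) (2 * a + 1) (a + 1) (by omega)).mono (by norm_num)).add
        (E.e_zero (mul_mem hr (L.rat (a / 2))))).of_sub ?_
      push_cast; ring
    have u1 := NN_U hn le_rfl (Nr.one (L := L))
    have u2 := EE_U hn (Nr.one (L := L))
    rw [DD_two] at h3
    have h5 := (((h1.mul h2 u1.1 u2.1).div h3 (u1.mul u2).1 (u1.mul u2)).mul h4
      (div_mem' (u1.mul u2).1 (u1.mul u2)) hr)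
    rw [div_self (u1.mul u2).2.2] at h5
    refine (ih.mul h5 (L.rat _) (mul_mem (one_mem _) hr)).of_sub ?_
    have e1 : ta L.q L.n (L.q ^ (a * L.n)) = NN L.q h (((L.q ^ L.n) ^ a) ^ 2)
        * EE L.q h (((L.q ^ L.n) ^ a) ^ 2 * (L.q ^ L.n) ^ 1) / DD L.q (2 * h) ((L.q ^ L.n) ^ a)
        * ((1 - (L.q ^ L.n) ^ (2 * a + 1)) / (1 - (L.q ^ L.n) ^ (a + 1))) := by
      have := ta_odd L.q ((L.q ^ L.n) ^ a) h
      rw [← hn] at this
      rw [show L.q ^ (a * L.n) = (L.q ^ L.n) ^ a by ring, pow_one, this]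
      congr 3 <;> ring
    rw [add_mul a, one_mul L.n, ta_add, e1, ww_succ]
    have : (a : K) + 1 ≠ 0 := by exact_mod_cast Nat.succ_ne_zero a
    have e2 : (2 * (a : K) + 2) = 2 * (a + 1) := by ring
    push_cast
    rw [e2]
    field_simp
    ring

theorem G_all (hh : 0 < h) (a : ℕ) :
    L.E 2 (∑ k ∈ range L.n, tt L.q k ((L.q ^ L.n) ^ a))
      (L.e * -((-1) ^ h * L.q ^ (h ^ 2) * (3 * a + 1))) := by
  have y1 := Nr.qn (L := L) a
  have Q1 : Nr L (L.q ^ L.n) 1 := (Nr.qn (L := L) 1).congr (pow_one _) (by simp)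
  set y := (L.q ^ L.n) ^ a with hy
  have k3 : L.E 2 (∑ k ∈ range L.n, tt L.q k y) (∑ k ∈ range (h + 1), tt L.q k y) := by
    rw [show L.n = h + 1 + h by omega, sum_range_add]
    refine (E.sum (range h) (f := fun k => tt L.q (h + 1 + k) y)
      (g := fun _ => 0) fun k hk => ?_).of_sub (by simp)
    have hk' := mem_range.mp hk
    have z : L.E 1 (1 - y ^ 2 * L.q ^ (2 * h + 1)) 0 := by
      rw [← hn]; exact ((y1.pow 2).mul Q1).near.neg.of_sub (by ring)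
    have hm : ∀ s : Finset ℕ, ∏ i ∈ s, (1 - y ^ 2 * L.q ^ (2 * i + 1)) ∈ L.O := fun s =>
      prod_mem fun i _ => sub_mem (one_mem _) (mul_mem (pow_mem y1.U.1 2) (L.qp _))
    have z2 : L.E 1 (ta L.q (h + 1 + k) y) 0 := by
      refine (z.smul (div_mem' (hm ((range (h + 1 + k)).erase h))
        (DD_U hn (k := h + 1 + k) (by omega) y1))).of_sub ?_
      rw [ta, NN, ← mul_prod_erase _ _ (show h ∈ range (h + 1 + k) from mem_range.mpr (by omega))]
      ring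
    refine ((z2.mul_zero z2).smul (mul_mem (mul_mem (pow_mem (neg_mem (one_mem _)) (h + 1 + k))
      (sub_mem (one_mem _) (mul_mem (pow_mem y1.U.1 3) (L.qp (3 * (h + 1 + k) + 1)))))
        (z2.mem (zero_mem _)))).of_sub ?_
    unfold tt; ring
  obtain ⟨N, rfl⟩ : ∃ N, h = N + 1 := ⟨h - 1, by omega⟩
  have k4 := cubic (y ^ 3 * L.q) L.q L.q0 (fun j => L.ne _ (by omega)) (fun _ _ => q_inj)
    (fun j => by
      have := L.ne (L.n * a * 3 + 1 + j) (by omega)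
      rwa [show L.q ^ (L.n * a * 3 + 1 + j) = y ^ 3 * L.q * L.q ^ j by rw [hy]; ring] at this) N
  have k5 : L.E 2 (∑ k ∈ range (N + 1 + 1), tt L.q k y) (∑ k ∈ range (N + 2),
      (1 - y ^ 3 * L.q * (L.q ^ k) ^ 3) * vv (y ^ 3 * L.q) L.q (L.q ^ (2 * (N + 1))) k) := by
    refine E.sum _ fun k hk => ?_
    have hk' := mem_range.mp hk
    have u1 := NN_U hn (k := k) (by omega) (Nr.one (L := L))
    have u2 := DD_U hn (k := k) (by omega) (Nr.one (L := L))
    obtain ⟨l, -, hl⟩ := TG_nr (NN_TG (L := L) k) u1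
    obtain ⟨l', -, hl'⟩ := TG_nr (DD_TG (L := L) k) u2
    have s1 := ((hl _ _ (y1.pow 2)).mul (hl' _ _ y1).inv).pow 3
    have s2 := (((hl _ _ ((y1.pow 3).mul Q1)).mul (hl _ _ Q1.inv)).mul (hl _ _ (y1.pow 3))).mul
      ((hl' _ _ Q1.inv).mul (hl' _ _ ((y1.pow 3).mul Q1))).inv
    have s3 := s1.2.trans (s2.congr rfl (by push_cast; ring)).2.symm
    refine (s3.smul (mul_mem (mul_mem (pow_mem (neg_mem (one_mem _)) k)
      (sub_mem (one_mem _) (mul_mem (pow_mem y1.U.1 3) (L.qp (3 * k + 1)))))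
        (pow_mem (div_mem' u1.1 u2) 3))).of_sub ?_
    rw [vv_eq _ _ L.q0, ← hn, tt, ta]
    have := u1.2.2
    have := u2.2.2
    have := (DD_U hn (k := k) (by omega) y1).2.2
    have := (DD_U hn (k := k) (by omega) Q1.inv).2.2
    have := (DD_U hn (k := k) (by omega) ((y1.pow 3).mul Q1)).2.2
    field_simp
    ring
  have u1 := NN_U hn le_rfl (Nr.one (L := L))
  have k6 := ((NN_TG (L := L) (N + 1)).near (y1.pow 3).1 (y1.pow 3).2).smul u1.2.1
  have k7 := ((y1.pow 3).mul Q1)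
  have k8 : L.E 1 (1 - y ^ 3 * L.q ^ L.n) 0 := k7.near.neg.of_sub (by ring)
  rw [inv_mul_cancel₀ u1.2.2] at k6
  refine ((k3.trans k5).add (((k6.mul_zero k8).sub k7.2).smul
    (mul_mem (pow_mem (neg_mem (one_mem _)) (N + 1)) (L.qp ((N + 1) ^ 2))))).of_sub ?_
  have e1 : ∏ i ∈ range (N + 2), (1 - y ^ 3 * L.q * L.q ^ (2 * i))
      = NN L.q (N + 1) (y ^ 3) * (1 - y ^ 3 * L.q ^ L.n) := by
    rw [prod_range_succ, NN, hn]
    congr 1
    · exact prod_congr rfl fun i _ => by ring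
    · ring
  have e2 : ∏ i ∈ range (N + 1), (1 - L.q ^ (2 * i + 1)) = NN L.q (N + 1) 1 := by simp [NN]
  rw [k4, e1, e2]
  push_cast
  ring

theorem main (hh : 0 < h) (m : ℕ) : L.E 2 (Lhs L.q m L.n) (Rhs L.q m L.n) := by
  have hU : L.U (1 - L.q) := by
    simpa using U.sub (L := L) (j := 1) (by rw [Nat.dvd_one]; omega)
  have e1 : (L.n - 1) / 2 = h := by omega
  have e2 : (L.n - 1) ^ 2 / 4 = h ^ 2 := by
    rw [hn, Nat.add_sub_cancel, mul_pow]; exact Nat.mul_div_cancel_left _ (by norm_num)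
  rw [Lhs, Rhs, sum_blocks, e1, e2, Rat.cast_sum, mul_sum]
  refine E.sum _ fun a _ => ?_
  have k1 := (blocks hn a).pow (L.rat _) 3
  have k4 := G_all hn hh a
  have hA : -((-1) ^ h * L.q ^ (h ^ 2) * (3 * a + 1)) ∈ L.O :=
    neg_mem (mul_mem (mul_mem (pow_mem (neg_mem (one_mem _)) _) (L.qp _))
      (add_mem (mul_mem (L.nat_mem 3) (L.nat_mem _)) (one_mem _)))
  have k5 : L.E 1 (∑ k ∈ range L.n, tt L.q k ((L.q ^ L.n) ^ a)) 0 :=
    ((k4.mono (by norm_num)).add (E.e_zero hA)).of_sub (by ring)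
  refine (((k1.mul_zero k5).add (k4.smul (pow_mem (L.rat (2 ^ a * ww a)) 3))).smul
    (div_mem' (pow_mem (neg_mem (one_mem _)) a) hU)).of_sub ?_
  have e3 : ∀ k, (-1) ^ (a * L.n + k) * qint L.q (3 * (a * L.n + k) + 1) * c L.q (a * L.n + k)
      = (-1) ^ a * ta L.q (a * L.n) 1 ^ 3 / (1 - L.q) * tt L.q k ((L.q ^ L.n) ^ a) := by
    intro k
    have : (-1 : K) ^ (a * L.n + k) = (-1) ^ a * (-1) ^ k := by
      rw [pow_add, mul_comm a, pow_mul, Odd.neg_one_pow ⟨h, hn⟩]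
    rw [c_eq, ta_add, this, tt, qint, show L.q ^ (a * L.n) = (L.q ^ L.n) ^ a by ring]
    ring
  have e4 : b a = (2 ^ a * ww a) ^ 3 := by
    rw [b, ww, mul_pow, div_pow, ← pow_mul, mul_comm a, pow_mul, mul_div_assoc]; norm_num; rfl
  simp only [e3]
  rw [← mul_sum, e4, qint]
  unfold e
  push_cast
  ring

omit hn in
theorem result :
    (∀ m n : ℕ, 0 < m → Odd n → 1 < n → Cong n (Lhs RatFunc.X m n) (Rhs RatFunc.X m n)) ∧
    ¬ Cong 1 (Lhs RatFunc.X 2 1) (Rhs RatFunc.X 2 1) := by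
  constructor
  · rintro m n - ⟨h, hn⟩ h1
    obtain ⟨h2, h3⟩ := cyc_out' (by omega) (main (L := cycL n (by omega)) hn (by omega) m)
    exact ⟨h2, fun h4 => (cyclotomic.irreducible_rat (show 0 < n by omega)).not_isUnit
      (h3.isUnit_of_dvd' h4 (dvd_pow_self _ two_ne_zero))⟩
  · rintro ⟨hP, -⟩
    have h1 : (1 - RatFunc.X : RatFunc ℚ) ≠ 0 := by
      have := (cycL 1 one_pos).ne 1 one_pos
      rwa [pow_one] at this
    have e2 : (Lhs RatFunc.X 2 1 - Rhs RatFunc.X 2 1 : RatFunc ℚ)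
        = algebraMap ℚ[X] _ (3 - X - X ^ 2 - X ^ 3) := by
      simp only [Lhs, Rhs, c, b, qint, poch, rising, sum_range_succ, prod_range_succ]
      norm_num [map_ofNat]
      field_simp
      ring
    rw [e2, RatFunc.num_algebraMap] at hP
    obtain ⟨M, hM⟩ := hP
    have := congrArg (fun f => eval 1 (derivative f)) hM
    simp [cyclotomic_one, derivative_mul, derivative_pow] at this
    norm_num at this

end Pool.Agent.Results.MP_c82d9a_nt.Blocks
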